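import Pool.Agent.W913.NA.Digits
import Pool.Agent.W913.NA.Cover

/-! The product of two null-additive sets of reals is null-additive in the plane. -/

namespace Pool.Agent.Results.MP_52c2ea_lc.NullAdditiveProduct

open Set MeasureTheory Filter Topology
open scoped Pointwise
open Pool.Agent.W913.NA

/-- `A` is null-additive: `A + N` is null for every null set `N` (with `volume` the Lebesgue
measure of `ℝ` or of `ℝ × ℝ`). -/
def NullAdditive {G : Type} [Add G] [MeasureSpace G] (A : Set G) : Prop :=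
  ∀ N : Set G, volume N = 0 → volume (A + N) = 0

/-- the part of `X` with all the digits from level `m` on in `I` -/
def part (q M : ℕ → ℕ) (I : ∀ n, Finset (ZMod (M n))) (X : Set ℝ) (m L : ℕ) : Set ℝ :=
  {x | x ∈ X ∧ x ∈ Ico (-(L : ℝ)) L ∧ ∀ n, m ≤ n → dig q M n x ∈ I n}

theorem part_cover {q M : ℕ → ℕ} {I : ∀ n, Finset (ZMod (M n))} {X : Set ℝ} {x : ℝ} (hx : x ∈ X)
    (h : ∀ᶠ n in atTop, dig q M n x ∈ I n) :
    ∃ m L : ℕ, ∀ m' L' : ℕ, m ≤ m' → L ≤ L' → x ∈ part q M I X m' L' := by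
  obtain ⟨m, hm⟩ := eventually_atTop.mp h
  obtain ⟨L, hL⟩ := exists_nat_gt |x|
  obtain ⟨h3, h4⟩ := abs_lt.mp hL
  refine ⟨m, L, fun m' L' hm' hL' => ⟨hx, ?_, fun n hn => hm n (hm'.trans hn)⟩⟩
  have : (L : ℝ) ≤ L' := by exact_mod_cast hL'
  exact ⟨by linarith, by linarith⟩

theorem part_card {q M : ℕ → ℕ} (hM : ∀ n, 0 < M n) (hq : ∀ n, q (n + 1) = q n * M n)
    {I : ∀ n, Finset (ZMod (M n))} (hI : ∀ n, (I n).card ≤ (n + 1) * 2 ^ n) (X : Set ℝ)
    (m L : ℕ) : ∃ c : ℝ, 0 ≤ c ∧ ∀ n, m ≤ n → (fl (q n) (part q M I X m L)).Finite ∧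
      ((fl (q n) (part q M I X m L)).ncard : ℝ) ≤
        c * ∏ i ∈ Finset.range n, (((i : ℝ) + 1) * 2 ^ i) := by
  obtain ⟨h1, h2⟩ := fl_box (q := q m) (L := L) (S := part q M I X m L) (fun x hx => hx.2.1)
  refine ⟨((fl (q m) (part q M I X m L)).ncard : ℝ), by positivity, fun n hn => ?_⟩
  obtain ⟨h3, h4⟩ := fl_iterate hM hq h1 (fun x hx n hn => hx.2.2 n hn) n hn
  refine ⟨h3, ?_⟩
  have h5 : ∏ i ∈ Finset.Ico m n, (I i).card ≤ ∏ i ∈ Finset.range n, ((i + 1) * 2 ^ i) := by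
    calc ∏ i ∈ Finset.Ico m n, (I i).card ≤ ∏ i ∈ Finset.Ico m n, ((i + 1) * 2 ^ i) :=
          Finset.prod_le_prod' (fun i _ => hI i)
      _ ≤ ∏ i ∈ Finset.range n, ((i + 1) * 2 ^ i) := by
          apply Finset.prod_le_prod_of_subset_of_one_le'
          · intro i hi
            rw [Finset.mem_range]
            exact (Finset.mem_Ico.mp hi).2
          · intro i _ _
            exact Nat.one_le_iff_ne_zero.mpr (by positivity)
  have h6 := h4.trans (Nat.mul_le_mul_left _ h5)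
  exact_mod_cast h6

theorem result (X Y : Set ℝ) (hX : NullAdditive X) (hY : NullAdditive Y) :
    NullAdditive (X ×ˢ Y : Set (ℝ × ℝ)) := by
  classical
  intro N hN
  -- the weights
  let κ : ℕ → ℝ := fun n => ∏ i ∈ Finset.range n, (((i : ℝ) + 1) * 2 ^ i)
  have hκ : ∀ n, 0 < κ n := fun n => Finset.prod_pos (fun i _ => by positivity)
  let δ : ℕ → ℝ := fun n => (1 / 2) ^ n / κ n ^ 2
  have hδ : ∀ n, 0 < δ n := fun n => by have := hκ n; positivity
  obtain ⟨Q, hQ⟩ := exists_cells hN δ hδ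
  have hthin := fun n : ℕ => exists_thin (2 ^ n) (by positivity) (Q (n + 1))
  choose M hMQ hM C hC hC2 using hthin
  let q : ℕ → ℕ := fun n => max 1 (Q 0) * ∏ i ∈ Finset.range n, M i
  have hq : ∀ n, q (n + 1) = q n * M n := by
    intro n
    simp only [q, Finset.prod_range_succ, mul_assoc]
  have hq0 : 0 < q 0 := by simp [q]
  have hqpos : ∀ n, 0 < q n := q_pos hq0 hM hq
  have hqQ : ∀ n, Q n ≤ q n := by
    intro n
    cases n with
    | zero => simp [q]
    | succ n =>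
      rw [hq]
      refine (hMQ n).trans ?_
      exact Nat.le_mul_of_pos_left _ (hqpos n)
  obtain ⟨B, hB, hBN⟩ := hQ q M hqpos hM hq hqQ
  obtain ⟨I, hI, hIX⟩ := digits_of_nullAdditive hq0 hM hq hX hC hC2
  obtain ⟨J, hJ, hJY⟩ := digits_of_nullAdditive hq0 hM hq hY hC hC2
  -- the pieces
  have hpiece : ∀ m L : ℕ, volume ((part q M I X m L ×ˢ part q M J Y m L : Set (ℝ × ℝ)) + N) = 0 := by
    intro m L
    obtain ⟨c, hc0, hc⟩ := part_card hM hq hI X m L
    obtain ⟨c', hc0', hc'⟩ := part_card hM hq hJ Y m L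
    let E : ℕ → Set (ℝ × ℝ) := fun n => if h : m ≤ n then
      ⋃ s ∈ (hc n h).1.toFinset, ⋃ t ∈ (hc' n h).1.toFinset, ⋃ b ∈ B n,
        Ico ((((s + b.1 : ℤ)) : ℝ) / q n) ((((s + b.1 : ℤ) : ℝ) + 2) / q n) ×ˢ
          Ico ((((t + b.2 : ℤ)) : ℝ) / q n) ((((t + b.2 : ℤ) : ℝ) + 2) / q n)
      else ∅
    have hEvol : ∀ n, volume (E n) ≤ ENNReal.ofReal (4 * c * c' * (1 / 2) ^ n) := by
      intro n
      by_cases h : m ≤ n
      · have hq' : (0 : ℝ) < q n := by exact_mod_cast hqpos n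
        simp only [E, dif_pos h]
        have h1 : ∀ s t : ℤ, ∀ b : ℤ × ℤ,
            volume (Ico ((((s + b.1 : ℤ)) : ℝ) / q n) ((((s + b.1 : ℤ) : ℝ) + 2) / q n) ×ˢ
              Ico ((((t + b.2 : ℤ)) : ℝ) / q n) ((((t + b.2 : ℤ) : ℝ) + 2) / q n)) =
              ENNReal.ofReal (4 / (q n : ℝ) ^ 2) := by
          intro s t b
          rw [Measure.volume_eq_prod, Measure.prod_prod, Real.volume_Ico, Real.volume_Ico,
            ← ENNReal.ofReal_mul]
          · congr 1
            field_simp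
            ring
          · rw [sub_nonneg]
            gcongr
            linarith
        refine (measure_biUnion_finset_le _ _).trans ?_
        refine (Finset.sum_le_sum (fun s _ => (measure_biUnion_finset_le _ _).trans
          (Finset.sum_le_sum (fun t _ => measure_biUnion_finset_le _ _)))).trans ?_
        simp only [h1, Finset.sum_const, nsmul_eq_mul]
        rw [← ncard_eq_toFinset_card _ (hc n h).1, ← ncard_eq_toFinset_card _ (hc' n h).1,
          ← ENNReal.ofReal_natCast, ← ENNReal.ofReal_natCast, ← ENNReal.ofReal_natCast,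
          ← ENNReal.ofReal_mul (by positivity), ← ENNReal.ofReal_mul (by positivity),
          ← ENNReal.ofReal_mul (by positivity)]
        apply ENNReal.ofReal_le_ofReal
        have h2 := (hc n h).2
        have h3 := (hc' n h).2
        have h4 := hB n
        have hκn := hκ n
        calc ((fl (q n) (part q M I X m L)).ncard : ℝ) *
              (((fl (q n) (part q M J Y m L)).ncard : ℝ) * (((B n).card : ℝ) *
                (4 / (q n : ℝ) ^ 2)))
            ≤ (c * κ n) * ((c' * κ n) * ((δ n * (q n : ℝ) ^ 2) * (4 / (q n : ℝ) ^ 2))) := by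
              gcongr
          _ = 4 * c * c' * (1 / 2) ^ n := by
              simp only [δ]
              field_simp
      · simp only [E, dif_neg h, measure_empty]
        exact bot_le
    have hnull : volume {w : ℝ × ℝ | ∃ᶠ n in atTop, w ∈ E n} = 0 := by
      apply measure_setOfPred_frequently_eq_zero
      refine ne_top_of_le_ne_top ?_ (ENNReal.tsum_le_tsum hEvol)
      have hs : Summable (fun n : ℕ => 4 * c * c' * (1 / 2 : ℝ) ^ n) :=
        (summable_geometric_of_lt_one (by norm_num) (by norm_num)).mul_left _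
      rw [← ENNReal.ofReal_tsum_of_nonneg (fun n => by positivity) hs]
      exact ENNReal.ofReal_ne_top
    refine measure_mono_null ?_ hnull
    rintro _ ⟨⟨x, y⟩, ⟨hx, hy⟩, z, hz, rfl⟩
    have hfr := (hBN z hz).and_eventually (eventually_ge_atTop m)
    refine hfr.mono ?_
    rintro n ⟨hn, hmn⟩
    have hq' : (0 : ℝ) < q n := by exact_mod_cast hqpos n
    simp only [E, dif_pos hmn, mem_iUnion, Set.Finite.mem_toFinset]
    refine ⟨⌊(q n : ℝ) * x⌋, ⟨x, hx, rfl⟩, ⌊(q n : ℝ) * y⌋, ⟨y, hy, rfl⟩, cell (q n) z, hn, ?_⟩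
    have key : ∀ u v : ℝ, u + v ∈ Ico ((((⌊(q n : ℝ) * u⌋ + ⌊(q n : ℝ) * v⌋ : ℤ)) : ℝ) / q n)
        ((((⌊(q n : ℝ) * u⌋ + ⌊(q n : ℝ) * v⌋ : ℤ) : ℝ) + 2) / q n) := by
      intro u v
      have e1 := Int.floor_le ((q n : ℝ) * u)
      have e2 := Int.lt_floor_add_one ((q n : ℝ) * u)
      have e3 := Int.floor_le ((q n : ℝ) * v)
      have e4 := Int.lt_floor_add_one ((q n : ℝ) * v)
      rw [mem_Ico, div_le_iff₀ hq', lt_div_iff₀ hq']
      push_cast
      constructor <;> nlinarith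
    exact ⟨key x z.1, key y z.2⟩
  refine measure_mono_null ?_ (measure_iUnion_null (fun m => measure_iUnion_null (hpiece m)))
  rintro _ ⟨⟨x, y⟩, ⟨hx, hy⟩, z, hz, rfl⟩
  obtain ⟨m1, L1, h1⟩ := part_cover hx (hIX x hx)
  obtain ⟨m2, L2, h2⟩ := part_cover hy (hJY y hy)
  simp only [mem_iUnion]
  refine ⟨max m1 m2, max L1 L2, (x, y), ⟨h1 _ _ (le_max_left _ _) (le_max_left _ _),
    h2 _ _ (le_max_right _ _) (le_max_right _ _)⟩, z, hz, rfl⟩

end Pool.Agent.Results.MP_52c2ea_lc.NullAdditiveProduct
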